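import Pool.Agent.H88.KN.Targets

/-!
MP_b5bf4a_co: module EA (helper50).
-/

namespace Pool.Agent.H50.KN

open Pool.Agent.H88.KN

theorem pf_EA : T_EA := by
  intro M _ w z
  have hM : 0 < M := Nat.pos_of_ne_zero (NeZero.ne M)
  have : NeZero (2 * M) := ⟨by omega⟩
  have hz : z.val < 2 * M := ZMod.val_lt z
  have hMv : ((M : ZMod (2 * M))).val = M := by
    rw [ZMod.val_natCast]
    exact Nat.mod_eq_of_lt (by omega)
  have hv : (z + (M : ZMod (2 * M))).val = (z.val + M) % (2 * M) := by
    rw [ZMod.val_add, hMv]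
  unfold Pool.Agent.H88.KN.ext
  by_cases h : z.val < M
  · have h1 : (z + (M : ZMod (2 * M))).val = z.val + M := by
      rw [hv]
      exact Nat.mod_eq_of_lt (by omega)
    rw [if_pos h, h1, if_neg (by omega)]
    simp
  · have h1 : (z + (M : ZMod (2 * M))).val = z.val - M := by
      rw [hv]
      have : z.val + M = (z.val - M) + 2 * M := by omega
      rw [this, Nat.add_mod_right]
      exact Nat.mod_eq_of_lt (by omega)
    rw [if_neg h, h1, if_pos (by omega)]
    simp

end Pool.Agent.H50.KN
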